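import Mathlib

namespace Pool.Agent.H20.CMC

open Finset

/-- one step of Minkowski's lemma: an automorphism of prime order, trivial modulo `π ^ n`, is trivial
modulo `π ^ (n + 1)` -/
theorem stepPi {V : Type*} [CommRing V] [IsDomain V] (p e : ℕ) (hp : p.Prime) (he1 : 1 ≤ e)
    (he : e + 1 < p) (π : V) (hπ0 : π ≠ 0) (hu : Associated (p : V) (π ^ e)) (s : V →+* V)
    (hsπ : s π = π) (n : ℕ) (hn : 1 ≤ n) (l : ℕ) (hl : l.Prime) (hsl : s ^ l = 1)
    (h : ∀ v, π ^ n ∣ s v - v) : ∀ v, π ^ (n + 1) ∣ s v - v := by
  let S : Module.End ℤ V := s.toAddMonoidHom.toIntLinearMap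
  let x : Module.End ℤ V := S - 1
  have hS : ∀ v, S v = s v := fun _ => rfl
  have hx : ∀ v, x v = s v - v := fun _ => rfl
  have hxπ : ∀ (m : ℕ) (w : V), x (π ^ m * w) = π ^ m * x w := by
    intro m w
    rw [hx, hx, map_mul, map_pow, hsπ]
    ring
  have hk : ∀ (k : ℕ) (v : V), π ^ (n * k) ∣ (x ^ k) v := by
    intro k
    induction k with
    | zero => intro v; simp
    | succ k ih =>
      intro v
      obtain ⟨w, hw⟩ := ih v
      have : (x ^ (k + 1)) v = π ^ (n * k) * x w := by
        rw [pow_succ', Module.End.mul_apply, hw, hxπ]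
      rw [this, mul_add, pow_add, mul_one]
      exact mul_dvd_mul_left _ (h w)
  have hSl : S ^ l = 1 := by
    have hk : ∀ k : ℕ, S ^ k = ((s ^ k).toAddMonoidHom.toIntLinearMap) := by
      intro k
      induction k with
      | zero => rfl
      | succ k ih =>
        rw [pow_succ, ih, pow_succ]
        rfl
    rw [hk, hsl]
    rfl
  have expand : ∀ v : V, (l : V) * x v + ∑ j ∈ Icc 2 l, ((l.choose j : ℕ) : V) * (x ^ j) v = 0 := by
    intro v
    have h1 : (x + 1) ^ l = 1 := by
      have : x + 1 = S := sub_add_cancel S 1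
      rw [this, hSl]
    rw [(Commute.one_right x).add_pow] at h1
    have h2 := LinearMap.congr_fun h1 v
    rw [LinearMap.sum_apply] at h2
    have h3 : ∀ m ∈ range (l + 1), (x ^ m * 1 ^ (l - m) * ((l.choose m : ℕ) : Module.End ℤ V)) v =
        ((l.choose m : ℕ) : V) * (x ^ m) v := by
      intro m _
      rw [one_pow, mul_one, Module.End.mul_apply, Module.End.natCast_apply, map_nsmul, nsmul_eq_mul]
    rw [Finset.sum_congr rfl h3] at h2
    have h4 : range (l + 1) = insert 0 (insert 1 (Icc 2 l)) := by
      ext j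
      simp only [mem_range, mem_insert, mem_Icc]
      have := hl.two_le
      omega
    rw [h4, Finset.sum_insert (by simp), Finset.sum_insert (by simp)] at h2
    simp only [Nat.choose_zero_right, Nat.cast_one, pow_zero, Module.End.one_apply, one_mul,
      Nat.choose_one_right, pow_one] at h2
    have h5 := add_eq_left.1 h2
    exact h5
  intro v
  rw [← hx]
  have hpow : π ^ e ≠ 0 := pow_ne_zero _ hπ0
  by_cases hlp : l = p
  · have hterm : ∀ j ∈ Icc 2 l, π ^ (e + n + 1) ∣ ((l.choose j : ℕ) : V) * (x ^ j) v := by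
      intro j hj
      rw [mem_Icc] at hj
      by_cases hjl : j = l
      · rw [hjl, Nat.choose_self, Nat.cast_one, one_mul]
        refine (pow_dvd_pow π ?_).trans (hk l v)
        rw [hlp]
        have h6 : p - 1 ≤ n * (p - 1) := Nat.le_mul_of_pos_left _ (by omega)
        have h7 : n * p = n * (p - 1) + n := by
          obtain ⟨q, hq⟩ : ∃ q, p = q + 1 := ⟨p - 1, by omega⟩
          rw [hq]; simp; ring
        omega
      · have hd : l ∣ l.choose j := hl.dvd_choose_self (by omega) (by omega)
        obtain ⟨c, hc⟩ := hd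
        have h6 : π ^ e ∣ ((l.choose j : ℕ) : V) := by
          rw [hc, Nat.cast_mul, hlp]
          exact hu.symm.dvd.trans (dvd_mul_right _ _)
        have h7 : π ^ (n + 1) ∣ (x ^ j) v := by
          refine (pow_dvd_pow π ?_).trans (hk j v)
          nlinarith
        have : e + n + 1 = e + (n + 1) := by ring
        rw [this, pow_add]
        exact mul_dvd_mul h6 h7
    have h8 : π ^ (e + n + 1) ∣ (l : V) * x v := by
      rw [eq_neg_of_add_eq_zero_left (expand v)]
      exact (Finset.dvd_sum hterm).neg_right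
    have h9 : π ^ e * π ^ (n + 1) ∣ π ^ e * x v := by
      rw [← pow_add]
      have : e + (n + 1) = e + n + 1 := by ring
      rw [this]
      obtain ⟨u, hu⟩ := hu
      have h10 : π ^ e * x v = (l : V) * x v * u := by
        rw [← hu, hlp]; ring
      rw [h10]
      exact h8.mul_right _
    exact (mul_dvd_mul_iff_left hpow).1 h9
  · have hterm : ∀ j ∈ Icc 2 l, π ^ (n + 1) ∣ ((l.choose j : ℕ) : V) * (x ^ j) v := by
      intro j hj
      rw [mem_Icc] at hj
      refine Dvd.dvd.mul_left ((pow_dvd_pow π ?_).trans (hk j v)) _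
      nlinarith
    have h8 : π ^ (n + 1) ∣ (l : V) * x v := by
      rw [eq_neg_of_add_eq_zero_left (expand v)]
      exact (Finset.dvd_sum hterm).neg_right
    have h9 : π ^ (n + 1) ∣ (p : V) * x v := by
      rw [pow_succ']
      have h1 : π ∣ (p : V) := (dvd_pow_self π (by omega)).trans hu.symm.dvd
      exact mul_dvd_mul h1 (h v)
    have hcop : IsCoprime (l : ℤ) (p : ℤ) := by
      rw [Nat.isCoprime_iff_coprime]
      exact (Nat.coprime_primes hl hp).2 hlp
    obtain ⟨a, b, hab⟩ := hcop
    have hab' : (a : V) * (l : V) + (b : V) * (p : V) = 1 := by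
      have := congrArg (fun z : ℤ => (z : V)) hab
      simpa using this
    have : x v = (a : V) * ((l : V) * x v) + (b : V) * ((p : V) * x v) := by
      calc x v = ((a : V) * (l : V) + (b : V) * (p : V)) * x v := by rw [hab', one_mul]
        _ = _ := by ring
    rw [this]
    exact dvd_add (h8.mul_left _) (h9.mul_left _)

/-- Minkowski's lemma -/
theorem mink {V : Type*} [CommRing V] [IsDomain V] (p e : ℕ) (hp : p.Prime) (he1 : 1 ≤ e)
    (he : e + 1 < p) (π : V) (hπ0 : π ≠ 0) (hu : Associated (p : V) (π ^ e))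
    (sep : ∀ v : V, (∀ n : ℕ, π ^ n ∣ v) → v = 0) :
    ∀ m : ℕ, 0 < m → ∀ s : V →+* V, s π = π → s ^ m = 1 → (∀ v, π ∣ s v - v) → s = 1 := by
  have prime : ∀ l : ℕ, l.Prime → ∀ s : V →+* V, s π = π → s ^ l = 1 →
      (∀ v, π ∣ s v - v) → s = 1 := by
    intro l hl s hsπ hs hy
    have key : ∀ n : ℕ, ∀ v, π ^ (n + 1) ∣ s v - v := by
      intro n
      induction n with
      | zero => simpa using hy
      | succ n ih => exact stepPi p e hp he1 he π hπ0 hu s hsπ (n + 1) (by omega) l hl hs ih
    ext v
    show s v = v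
    apply sub_eq_zero.1
    apply sep
    intro n
    exact (pow_dvd_pow π (Nat.le_succ n)).trans (key n v)
  intro m
  induction m using Nat.strong_induction_on with
  | _ m ih =>
    intro hm s hsπ hs hy
    by_cases h1 : m = 1
    · subst h1; simpa using hs
    · obtain ⟨l, hl, k, hk⟩ := Nat.exists_prime_and_dvd h1
      have hk0 : 0 < k := by
        rcases Nat.eq_zero_or_pos k with h | h
        · subst h; simp at hk; omega
        · exact h
      have hkm : k < m := by
        rw [hk]
        have := hl.two_le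
        nlinarith
      have hpow : ∀ j : ℕ, (s ^ j) π = π ∧ ∀ v, π ∣ (s ^ j) v - v := by
        intro j
        induction j with
        | zero => exact ⟨rfl, fun v => by simp⟩
        | succ j ihj =>
          refine ⟨?_, fun v => ?_⟩
          · rw [pow_succ]
            show (s ^ j) (s π) = π
            rw [hsπ, ihj.1]
          · rw [pow_succ]
            show π ∣ (s ^ j) (s v) - v
            have : (s ^ j) (s v) - v = ((s ^ j) (s v) - s v) + (s v - v) := by ring
            rw [this]
            exact dvd_add (ihj.2 _) (hy v)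
      have ht : (s ^ k) ^ l = 1 := by rw [← pow_mul, mul_comm, ← hk]; exact hs
      exact ih k hkm hk0 s hsπ (prime l hl _ (hpow k).1 ht (hpow k).2) hy

end Pool.Agent.H20.CMC
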