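import Mathlib
import Pool.Agent.H20.CMC.Mink

namespace Pool.Agent.H20.CMC

open IsLocalRing

theorem memMax {C : Type*} [CommRing C] (P : Ideal C) [hP : P.IsPrime] (c : C) :
    algebraMap C (Localization.AtPrime P) c ∈ maximalIdeal (Localization.AtPrime P) ↔ c ∈ P :=
  IsLocalization.AtPrime.to_map_mem_maximal_iff _ P c

/-- the localization of a noetherian normal domain at a prime of height one is a discrete valuation ring -/
theorem dvr_loc {C : Type*} [CommRing C] [IsDomain C] [IsNoetherianRing C] [IsIntegrallyClosed C]
    (P : Ideal C) [hP : P.IsPrime] (hP0 : P ≠ ⊥)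
    (hmin : ∀ Q : Ideal C, Q.IsPrime → Q ≤ P → Q ≠ ⊥ → Q = P) :
    IsDiscreteValuationRing (Localization.AtPrime P) := by
  have hle : P.primeCompl ≤ nonZeroDivisors C := P.primeCompl_le_nonZeroDivisors
  have : IsDomain (Localization.AtPrime P) := IsLocalization.isDomain_localization hle
  have : IsIntegrallyClosed (Localization.AtPrime P) :=
    isIntegrallyClosed_of_isLocalization _ P.primeCompl hle
  have : IsNoetherianRing (Localization.AtPrime P) :=
    IsLocalization.isNoetherianRing P.primeCompl _ inferInstance
  have inj : Function.Injective (algebraMap C (Localization.AtPrime P)) :=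
    IsLocalization.injective _ hle
  have hcm : Ideal.comap (algebraMap C (Localization.AtPrime P)) (maximalIdeal (Localization.AtPrime P)) = P := by
    ext c
    exact memMax P c
  have hne : maximalIdeal (Localization.AtPrime P) ≠ ⊥ := by
    intro h
    apply hP0
    rw [← hcm, h]
    exact (RingHom.injective_iff_ker_eq_bot _).1 inj
  have hnf : ¬ IsField (Localization.AtPrime P) := by
    rw [isField_iff_maximalIdeal_eq]
    exact hne
  have hT : (IsIntegrallyClosed (Localization.AtPrime P) ∧
      ∃! Q : Ideal (Localization.AtPrime P), Q ≠ ⊥ ∧ Q.IsPrime) ↔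
      IsDiscreteValuationRing (Localization.AtPrime P) :=
    (IsDiscreteValuationRing.TFAE (Localization.AtPrime P) hnf).out 3 0
  refine hT.1 ⟨inferInstance, maximalIdeal (Localization.AtPrime P), ⟨hne, inferInstance⟩, ?_⟩
  rintro Q ⟨hQ0, hQ⟩
  have hQle : Q ≤ maximalIdeal (Localization.AtPrime P) := le_maximalIdeal hQ.ne_top
  have mc : ∀ Q : Ideal (Localization.AtPrime P), Ideal.map (algebraMap C (Localization.AtPrime P))
      (Ideal.comap (algebraMap C (Localization.AtPrime P)) Q) = Q :=
    fun Q => IsLocalization.map_comap P.primeCompl (Localization.AtPrime P) Q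
  have e1 : Ideal.comap (algebraMap C (Localization.AtPrime P)) Q = P := by
    apply hmin
    · exact Ideal.IsPrime.comap _
    · exact (Ideal.comap_mono hQle).trans hcm.le
    · intro h0
      apply hQ0
      have := mc Q
      rw [h0, Ideal.map_bot] at this
      exact this.symm
  rw [← mc Q, ← mc (maximalIdeal (Localization.AtPrime P)), e1, hcm]

/-- **multiplicity one**: if unramified points centred on `P` escape every proper closed subset of `V(P)`,
then `π` is a uniformizer at `P` -/
theorem mult_one {C : Type*} [CommRing C] [IsDomain C] [IsNoetherianRing C] [IsIntegrallyClosed C]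
    (π : C) (P : Ideal C) [hP : P.IsPrime] (hpP : π ∈ P) (hp0 : π ≠ 0)
    (hmin : ∀ Q : Ideal C, Q.IsPrime → Q ≤ P → Q ≠ ⊥ → Q = P)
    (hpts : ∀ g : C, g ∉ P → ∃ (O : Type) (_ : CommRing O) (_ : IsDomain O) (y : C →+* O),
      Irreducible (y π) ∧ IsUnit (y g)) :
    maximalIdeal (Localization.AtPrime P) = Ideal.span {algebraMap C (Localization.AtPrime P) π} := by
  have hP0 : P ≠ ⊥ := by
    intro h
    rw [h] at hpP
    exact hp0 (by simpa using hpP)
  have : IsDomain (Localization.AtPrime P) :=
    IsLocalization.isDomain_localization P.primeCompl_le_nonZeroDivisors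
  have inj : Function.Injective (algebraMap C (Localization.AtPrime P)) :=
    IsLocalization.injective _ P.primeCompl_le_nonZeroDivisors
  have := dvr_loc P hP0 hmin
  obtain ⟨w, hw⟩ := IsDiscreteValuationRing.exists_irreducible (Localization.AtPrime P)
  obtain ⟨c, g, hcg⟩ := IsLocalization.exists_mk'_eq P.primeCompl w
  have hcw : algebraMap C (Localization.AtPrime P) c = w * algebraMap C _ (g : C) := by
    rw [← hcg]
    exact (IsLocalization.mk'_spec _ _ _).symm
  have hgu : IsUnit (algebraMap C (Localization.AtPrime P) (g : C)) := IsLocalization.map_units _ g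
  have hci : Irreducible (algebraMap C (Localization.AtPrime P) c) := by
    rw [hcw]
    exact (irreducible_mul_isUnit hgu).2 hw
  have hpV : algebraMap C (Localization.AtPrime P) π ≠ 0 := by
    intro h
    apply hp0
    apply inj
    rw [map_zero, h]
  obtain ⟨e, u, hu⟩ := IsDiscreteValuationRing.eq_unit_mul_pow_irreducible hpV hci
  obtain ⟨a, b, hab⟩ := IsLocalization.exists_mk'_eq P.primeCompl (u : Localization.AtPrime P)
  have hau : algebraMap C (Localization.AtPrime P) a = (u : Localization.AtPrime P) * algebraMap C _ (b : C) := by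
    rw [← hab]
    exact (IsLocalization.mk'_spec _ _ _).symm
  have haP : a ∉ P := by
    intro ha
    have h1 : IsUnit (algebraMap C (Localization.AtPrime P) a) := by
      rw [hau]
      exact u.isUnit.mul (IsLocalization.map_units _ b)
    have h2 : algebraMap C (Localization.AtPrime P) a ∈ maximalIdeal (Localization.AtPrime P) :=
      (memMax P a).2 ha
    exact (mem_maximalIdeal _).1 h2 h1
  have hbP : (b : C) ∉ P := b.2
  have key : π * (b : C) = a * c ^ e := by
    apply inj
    rw [map_mul, map_mul, map_pow, hau, hu]
    ring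
  have habP : a * (b : C) ∉ P := by
    intro h
    rcases hP.mem_or_mem h with h | h
    · exact haP h
    · exact hbP h
  obtain ⟨O, _, _, y, hirr, hunit⟩ := hpts _ habP
  rw [map_mul] at hunit
  have hya : IsUnit (y a) := isUnit_of_mul_isUnit_left hunit
  have hyb : IsUnit (y (b : C)) := isUnit_of_mul_isUnit_right hunit
  have key2 := congrArg y key
  rw [map_mul, map_mul, map_pow] at key2
  have hie : Irreducible (y c ^ e) := by
    have h1 : Irreducible (y π * y (b : C)) := (irreducible_mul_isUnit hyb).2 hirr
    rw [key2] at h1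
    exact (irreducible_isUnit_mul hya).1 h1
  have he : e = 1 := by
    by_contra hne
    exact not_irreducible_pow hne hie
  subst he
  have hpi : Irreducible (algebraMap C (Localization.AtPrime P) π) := by
    rw [hu, pow_one]
    exact (irreducible_units_mul u).2 hci
  exact hpi.maximalIdeal_eq

/-- a finite order endomorphism of `C`, trivial modulo `P`, is trivial -/
theorem trivial_of_points {C : Type*} [CommRing C] [IsDomain C] [IsNoetherianRing C] [IsIntegrallyClosed C]
    (p e : ℕ) (hp : p.Prime) (he1 : 1 ≤ e) (he : e + 1 < p) (π : C) (hram : Associated (p : C) (π ^ e))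
    (P : Ideal C) [hP : P.IsPrime] (hpP : π ∈ P) (hp0 : π ≠ 0)
    (hmin : ∀ Q : Ideal C, Q.IsPrime → Q ≤ P → Q ≠ ⊥ → Q = P)
    (hpts : ∀ g : C, g ∉ P → ∃ (O : Type) (_ : CommRing O) (_ : IsDomain O) (y : C →+* O),
      Irreducible (y π) ∧ IsUnit (y g))
    (s : C →+* C) (hsπ : s π = π) (m : ℕ) (hm : 0 < m) (hsm : s ^ m = 1) (hs : ∀ c, s c - c ∈ P) :
    ∀ c, s c = c := by
  have hmax := mult_one π P hpP hp0 hmin hpts
  have hP0 : P ≠ ⊥ := by
    intro h
    rw [h] at hpP
    exact hp0 (by simpa using hpP)
  have : IsDomain (Localization.AtPrime P) :=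
    IsLocalization.isDomain_localization P.primeCompl_le_nonZeroDivisors
  have inj : Function.Injective (algebraMap C (Localization.AtPrime P)) :=
    IsLocalization.injective _ P.primeCompl_le_nonZeroDivisors
  have := dvr_loc P hP0 hmin
  have hcomp : P.primeCompl ≤ Submonoid.comap s P.primeCompl := by
    intro g hg
    show s g ∉ P
    intro h
    apply hg
    have := P.sub_mem h (hs g)
    simpa using this
  set t : Localization.AtPrime P →+* Localization.AtPrime P :=
    IsLocalization.map (Localization.AtPrime P) s hcomp with ht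
  have htc : ∀ c, t (algebraMap C _ c) = algebraMap C _ (s c) := fun c => IsLocalization.map_eq hcomp c
  have htp : ∀ k : ℕ, ∀ c, (t ^ k) (algebraMap C _ c) = algebraMap C _ ((s ^ k) c) := by
    intro k
    induction k with
    | zero => intro c; rfl
    | succ k ih =>
      intro c
      rw [pow_succ, pow_succ]
      show (t ^ k) (t _) = algebraMap C _ ((s ^ k) (s c))
      rw [htc, ih]
  have htm : t ^ m = 1 := by
    apply IsLocalization.ringHom_ext P.primeCompl
    ext c
    show (t ^ m) (algebraMap C _ c) = algebraMap C _ c
    rw [htp, hsm]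
    rfl
  have hres : (residue (Localization.AtPrime P)).comp t = residue (Localization.AtPrime P) := by
    apply IsLocalization.ringHom_ext P.primeCompl
    ext c
    show residue _ (t (algebraMap C _ c)) = residue _ (algebraMap C _ c)
    rw [htc, ← sub_eq_zero, ← map_sub, ← map_sub, residue_eq_zero_iff]
    exact (memMax P _).2 (hs c)
  set ϖ : Localization.AtPrime P := algebraMap C (Localization.AtPrime P) π with hϖ
  have h1 : ∀ v : Localization.AtPrime P, ϖ ∣ t v - v := by
    intro v
    have h2 : t v - v ∈ maximalIdeal (Localization.AtPrime P) := by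
      rw [← residue_eq_zero_iff, map_sub, sub_eq_zero]
      exact RingHom.congr_fun hres v
    rwa [hmax, Ideal.mem_span_singleton] at h2
  have hpV : ϖ ≠ 0 := by
    intro h
    apply hp0
    apply inj
    rw [map_zero, ← h]
  have sep : ∀ v : Localization.AtPrime P, (∀ n : ℕ, ϖ ^ n ∣ v) → v = 0 := by
    intro v hv
    have h2 : v ∈ (⨅ i : ℕ, maximalIdeal (Localization.AtPrime P) ^ i) := by
      rw [Ideal.mem_iInf]
      intro i
      rw [hmax, Ideal.span_singleton_pow, Ideal.mem_span_singleton]
      exact hv i
    rw [Ideal.iInf_pow_eq_bot_of_isLocalRing _ (Ideal.IsPrime.ne_top inferInstance)] at h2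
    simpa using h2
  have hramV : Associated (p : Localization.AtPrime P) (ϖ ^ e) := by
    have := hram.map (algebraMap C (Localization.AtPrime P))
    rwa [map_natCast, map_pow] at this
  have hT := mink p e hp he1 he ϖ hpV hramV sep m hm t (by rw [hϖ, htc, hsπ]) htm h1
  intro c
  apply inj
  rw [← htc, hT]
  rfl

end Pool.Agent.H20.CMC
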