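import Mathlib
import Pool.Agent.H20.CMC.Mult

namespace Pool.Agent.H20.CMC

/-- Artin: an automorphism of a domain fixing the invariants of a finite group belongs to it -/
theorem artin {B G : Type*} [CommRing B] [IsDomain B] [Group G] [Finite G] [MulSemiringAction G B]
    [FaithfulSMul G B] (J : Subgroup G) (s : G)
    (h : ∀ b : B, b ∈ FixedPoints.subring B J → s • b = b) : s ∈ J := by
  classical
  by_contra hs
  have := Fintype.ofFinite J
  let F : J ⊕ J → (B →* B) := Sum.elim
    (fun j => (MulSemiringAction.toRingHom G B (j : G) : B →* B))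
    (fun j => (MulSemiringAction.toRingHom G B (s * (j : G)) : B →* B))
  have Finj : Function.Injective F := by
    have h0 : ∀ g g' : G, (MulSemiringAction.toRingHom G B g : B →* B) =
        (MulSemiringAction.toRingHom G B g' : B →* B) → g = g' := by
      intro g g' hgg
      apply FaithfulSMul.eq_of_smul_eq_smul (α := B)
      intro b
      exact DFunLike.congr_fun hgg b
    rintro (a | a) (b | b) hab
    · congr 1
      exact Subtype.ext (h0 _ _ hab)
    · exfalso
      apply hs
      have := h0 _ _ hab
      have e : s = (a : G) * (b : G)⁻¹ := by rw [this]; group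
      rw [e]
      exact J.mul_mem a.2 (J.inv_mem b.2)
    · exfalso
      apply hs
      have := h0 _ _ hab
      have e : s = (b : G) * (a : G)⁻¹ := by rw [← this]; group
      rw [e]
      exact J.mul_mem b.2 (J.inv_mem a.2)
    · congr 1
      have := h0 _ _ hab
      exact Subtype.ext (mul_left_cancel this)
  have LI := (linearIndependent_monoidHom B B).comp F Finj
  rw [Fintype.linearIndependent_iff] at LI
  have h1 := LI (Sum.elim (fun _ => (1 : B)) (fun _ => (-1 : B))) ?_ (Sum.inl 1)
  · simp at h1
  · funext b
    simp only [Function.comp_apply, Fintype.sum_sum_type, Sum.elim_inl, Sum.elim_inr, one_smul,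
      Pi.add_apply, Finset.sum_apply, Pi.smul_apply, Pi.zero_apply, smul_eq_mul, neg_mul, one_mul]
    have ht : (∑ j : J, (j : G) • b) ∈ FixedPoints.subring B J := by
      intro k
      show (k : G) • (∑ j : J, (j : G) • b) = _
      rw [Finset.smul_sum]
      refine Fintype.sum_equiv (Equiv.mulLeft k) _ _ ?_
      intro j
      rw [smul_smul]
      rfl
    have h2 := h _ ht
    rw [Finset.smul_sum] at h2
    have e1 : (∑ j : J, (F (Sum.inl j)) b) = ∑ j : J, (j : G) • b := rfl
    have e2 : (∑ j : J, -(F (Sum.inr j)) b) = - ∑ j : J, s • (j : G) • b := by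
      rw [Finset.sum_neg_distrib]
      congr 1
      refine Finset.sum_congr rfl ?_
      intro j _
      rw [smul_smul]
      rfl
    rw [e1, e2, h2]
    ring

/-- the ring of invariants of a normal domain is normal -/
theorem fixed_normal {B G : Type*} [CommRing B] [IsDomain B] [IsIntegrallyClosed B] [Group G]
    [MulSemiringAction G B] : IsIntegrallyClosed (FixedPoints.subring B G) := by
  set R := FixedPoints.subring B G with hR
  have hinj : Function.Injective (algebraMap R (FractionRing B)) := by
    have : algebraMap R (FractionRing B) = (algebraMap B (FractionRing B)).comp (algebraMap R B) :=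
      IsScalarTower.algebraMap_eq R B (FractionRing B)
    rw [this]
    exact (IsFractionRing.injective B (FractionRing B)).comp Subtype.val_injective
  have hu : ∀ y : nonZeroDivisors R, IsUnit (algebraMap R (FractionRing B) y) := by
    intro y
    rw [isUnit_iff_ne_zero]
    intro h
    have : (y : R) = 0 := hinj (by rw [h, map_zero])
    exact nonZeroDivisors.ne_zero y.2 this
  let φ : FractionRing R →+* FractionRing B := IsLocalization.lift (M := nonZeroDivisors R) hu
  have hφ : ∀ r : R, φ (algebraMap R (FractionRing R) r) = algebraMap R (FractionRing B) r :=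
    fun r => IsLocalization.lift_eq hu r
  have hφinj : Function.Injective φ := φ.injective
  rw [isIntegrallyClosed_iff (FractionRing R)]
  intro x hx
  obtain ⟨r, t, hrt⟩ := IsLocalization.exists_mk'_eq (nonZeroDivisors R) x
  have hxt : x * algebraMap R (FractionRing R) (t : R) = algebraMap R (FractionRing R) r := by
    rw [← hrt]
    exact IsLocalization.mk'_spec _ _ _
  -- the image is integral over `B`
  have hint : IsIntegral B (φ x) := by
    have h1 : IsIntegral R (φ x) := by
      obtain ⟨P, hP, hPx⟩ := hx
      refine ⟨P, hP, ?_⟩
      have hcomp : φ.comp (algebraMap R (FractionRing R)) = algebraMap R (FractionRing B) := by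
        ext r
        exact hφ r
      rw [← hcomp, ← Polynomial.hom_eval₂, hPx, map_zero]
    exact h1.tower_top
  obtain ⟨b, hb⟩ := (IsIntegrallyClosed.isIntegral_iff (R := B) (K := FractionRing B)).1 hint
  have hbt : b * (t : B) = (r : B) := by
    apply IsFractionRing.injective B (FractionRing B)
    rw [map_mul, hb]
    have := congrArg φ hxt
    rw [map_mul, hφ, hφ] at this
    exact this
  have ht0 : ((t : R) : B) ≠ 0 := by
    intro h
    exact nonZeroDivisors.ne_zero t.2 (Subtype.ext h)
  have hbR : b ∈ R := by
    intro g
    have h1 := congrArg (fun z => g • z) hbt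
    simp only [smul_mul'] at h1
    have h2 : g • ((t : R) : B) = ((t : R) : B) := (t : R).2 g
    have h3 : g • (r : B) = (r : B) := r.2 g
    rw [h2, h3, ← hbt] at h1
    exact mul_right_cancel₀ ht0 h1
  refine ⟨⟨b, hbR⟩, ?_⟩
  apply hφinj
  rw [hφ, ← hb]
  rfl

end Pool.Agent.H20.CMC
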