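import Mathlib

namespace Pool.Agent.H20.CMC

/-- `O` is a discrete valuation ring with uniformizer `t`. -/
def Unif {O : Type} [CommRing O] (t : O) : Prop :=
  IsDomain O ∧ Irreducible t ∧ ∀ a : O, a ≠ 0 → ∃ n : ℕ, Associated (t ^ n) a

/-- `A` is a noetherian normal domain, `t` is a prime element and `p` is `t ^ e` up to a unit. -/
def Good (p e : ℕ) {A : Type} [CommRing A] (t : A) : Prop :=
  IsDomain A ∧ IsNoetherianRing A ∧ IsIntegrallyClosed A ∧ Prime t ∧ Associated (p : A) (t ^ e)

/-- `f : A → B` is a finite injective homomorphism to a normal domain, `P` is a prime of `B` over `(t)`,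
`I` is a finite group acting faithfully on `B` over `A` and trivially modulo `P`. -/
structure Inert {A B I : Type} [CommRing A] [CommRing B] [Group I] (t : A) (f : A →+* B) (P : Ideal B)
    (act : I →* (B →+* B)) : Prop where
  dom : IsDomain B
  normal : IsIntegrallyClosed B
  inj : Function.Injective f
  fin : f.Finite
  prime : P.IsPrime
  lies : P.comap f = Ideal.span {t}
  finI : Finite I
  faith : Function.Injective act
  fix : ∀ g a, act g (f a) = f a
  triv : ∀ g b, act g b - b ∈ P

/-- the inertia at the point `x` of `A` lies in `J`: there are a point `y` of `B` over `x`, centred on `P`,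
with values in `O''`, and a set `G` of automorphisms of `O''` whose invariants `O'` are unramified over `O`,
such that each element of `G` is induced by an element of `J`. -/
def InertiaIn {A B I O : Type} [CommRing A] [CommRing B] [Group I] [CommRing O] (t : A) (f : A →+* B)
    (P : Ideal B) (act : I →* (B →+* B)) (J : Subgroup I) (x : A →+* O) : Prop :=
  ∃ (O' O'' : CommRingCat.{0}) (G : Set (O'' →+* O'')) (i : O →+* O') (k : O' →+* O'') (y : B →+* O''),
    Unif (i (x t)) ∧ Function.Injective k ∧ (∀ c, (∀ g ∈ G, g c = c) → ∃ d, k d = c) ∧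
    (∀ a, y (f a) = k (i (x a))) ∧ (∀ b ∈ P, ¬ IsUnit (y b)) ∧
    ∀ g ∈ G, ∃ h ∈ J, ∀ b, g (y b) = y (act h b)

/-- `S` is a set of points of `A`, and those among them which are unramified are dense. -/
def DensePts {A : Type} [CommRing A] (t : A) (S : ∀ O : CommRingCat.{0}, (A →+* O) → Prop) : Prop :=
  ∀ s : A, ¬ t ∣ s → ∃ (O : CommRingCat.{0}) (x : A →+* O), S O x ∧ Unif (x t) ∧ IsUnit (x s)

/-- local systems on smooth formal schemes, with the published facts used -/
structure Theory (p e : ℕ) where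
  Sch : Type
  Aff : Sch → Type
  nonempty : ∀ X : Sch, Nonempty (Aff X)
  A : ∀ X : Sch, Aff X → CommRingCat.{0}
  t : ∀ (X : Sch) (U : Aff X), A X U
  good : ∀ (X : Sch) (U : Aff X), Good p e (t X U)
  Loc : Sch → Type
  DeRham : ∀ X : Sch, Loc X → Prop
  CrysAt : ∀ (X : Sch) (U : Aff X), Loc X → ∀ O : CommRingCat.{0}, (A X U →+* O) → Prop
  CrysOn : ∀ X : Sch, Aff X → Loc X → Prop
  Crys : ∀ X : Sch, Loc X → Prop
  rigidity : ∀ (X : Sch) (U : Aff X) (L : Loc X) (O : CommRingCat.{0}) (x : A X U →+* O),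
    CrysAt X U L O x → DeRham X L
  monodromy : ∀ (X : Sch) (L : Loc X), DeRham X L →
    ∃ (U : Aff X) (B : CommRingCat.{0}) (I : GrpCat.{0}) (D : ModuleCat.{0} ℤ)
      (f : A X U →+* B) (P : Ideal B) (act : I →* (B →+* B))
      (N : Module.End ℤ D) (τ : I →* Module.End ℤ D),
      Inert (t X U) f P act ∧ (N = 0 → τ = 1 → CrysOn X U L) ∧
      ∀ (O : CommRingCat.{0}) (x : A X U →+* O), Unif (x (t X U)) → CrysAt X U L O x →
        N = 0 ∧ InertiaIn (t X U) f P act τ.ker x
  purity : ∀ (X : Sch) (U : Aff X) (L : Loc X), CrysOn X U L → Crys X L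
  Shim : Sch → Prop
  CM : ∀ (X : Sch) (U : Aff X) (O : CommRingCat.{0}), (A X U →+* O) → Prop
  lifts : ∀ X : Sch, Shim X → ∀ U : Aff X, DensePts (t X U) (CM X U)

end Pool.Agent.H20.CMC
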