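import Mathlib
import Pool.Agent.H20.CMC.Defs
import Pool.Agent.H20.CMC.Core

namespace Pool.Agent.H20.CMC

/-- a nonzero prime contained in `(p)` is `(p)` -/
theorem prime_le {A : Type*} [CommRing A] [IsDomain A] [IsNoetherianRing A] (p : A) (hp : Prime p)
    (Q : Ideal A) [hQ : Q.IsPrime] (hle : Q ≤ Ideal.span {p}) (hQ0 : Q ≠ ⊥) : Q = Ideal.span {p} := by
  by_cases h : p ∈ Q
  · exact le_antisymm hle ((Ideal.span_singleton_le_iff_mem _).2 h)
  · exfalso
    apply hQ0
    have key : ∀ n : ℕ, ∀ a ∈ Q, a ∈ Ideal.span {p} ^ n := by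
      intro n
      induction n with
      | zero => intro a _; simp
      | succ n ih =>
        intro a ha
        obtain ⟨b, hb⟩ := Ideal.mem_span_singleton.1 (hle ha)
        have hbQ : b ∈ Q := by
          rw [hb] at ha
          exact (hQ.mem_or_mem ha).resolve_left h
        rw [pow_succ', hb]
        exact Ideal.mul_mem_mul (Ideal.mem_span_singleton_self p) (ih b hbQ)
    rw [eq_bot_iff]
    intro a ha
    have h2 : a ∈ (⨅ i : ℕ, Ideal.span {p} ^ i) := by
      rw [Ideal.mem_iInf]
      exact fun i => key i a ha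
    rw [Ideal.iInf_pow_eq_bot_of_isDomain] at h2
    · exact h2
    · intro ht
      exact hp.not_unit (Ideal.span_singleton_eq_top.1 ht)

/-- in a discrete valuation ring the non units are closed under addition -/
theorem Unif.add {O : Type} [CommRing O] {t : O} (h : Unif t) {a b : O} (ha : ¬ IsUnit a)
    (hb : ¬ IsUnit b) : ¬ IsUnit (a + b) := by
  obtain ⟨_, hirr, hall⟩ := h
  have dv : ∀ c : O, ¬ IsUnit c → t ∣ c := by
    intro c hc
    by_cases h0 : c = 0
    · rw [h0]; exact dvd_zero t
    · obtain ⟨n, hn⟩ := hall c h0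
      have hn0 : n ≠ 0 := by
        rintro rfl
        apply hc
        rw [pow_zero] at hn
        exact hn.isUnit isUnit_one
      exact (dvd_pow_self t hn0).trans hn.dvd
  intro hu
  exact hirr.not_isUnit (isUnit_of_dvd_unit (dvd_add (dv a ha) (dv b hb)) hu)

/-- **the finite cover theorem** -/
theorem cover_thm (p e : ℕ) (hp : p.Prime) (he1 : 1 ≤ e) (he : e + 1 < p)
    (A B : CommRingCat.{0}) (I : GrpCat.{0}) (t : A) (f : A →+* B) (P : Ideal B)
    (act : I →* (B →+* B)) (J : Subgroup I) (S : ∀ O : CommRingCat.{0}, (A →+* O) → Prop)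
    (hA : Good p e t) (hC : Inert t f P act) (hJ : J.Normal) (hd : DensePts t S)
    (h : ∀ O x, S O x → Unif (x t) → InertiaIn t f P act J x) : J = ⊤ := by
  obtain ⟨_, _, _, htp, hram⟩ := hA
  have := hC.dom
  have := hC.normal
  have := hC.prime
  have := hC.finI
  letI : MulSemiringAction I B := MulSemiringAction.compHom B act
  have hact : ∀ (g : I) (b : B), g • b = act g b := fun _ _ => rfl
  have hfaith : FaithfulSMul I B := ⟨by
    intro g g' hgg
    apply hC.faith
    ext b
    exact hgg b⟩
  letI : Algebra A B := f.toAlgebra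
  have : Module.Finite A B := hC.fin
  have hNB : IsNoetherian A B := isNoetherian_of_isNoetherianRing_of_finite A B
  set R := FixedPoints.subring B J with hR
  -- the map `A → R`
  have hmem : ∀ a, f a ∈ R := by
    intro a j
    exact hC.fix _ a
  let fR : A →+* R := f.codRestrict R hmem
  letI : Algebra A R := fR.toAlgebra
  have hfR : ∀ a, ((algebraMap A R a : R) : B) = f a := fun a => rfl
  have hinjR : Function.Injective (algebraMap A R) := by
    intro a b hab
    apply hC.inj
    rw [← hfR, ← hfR, hab]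
  let L : R →ₗ[A] B :=
    { toFun := fun r => r
      map_add' := fun _ _ => rfl
      map_smul' := fun a r => by
        show ((a • r : R) : B) = a • (r : B)
        rw [Algebra.smul_def, Algebra.smul_def]
        rfl }
  have hNR : IsNoetherian A R := isNoetherian_of_injective L Subtype.val_injective
  have hNRR : IsNoetherianRing R := isNoetherian_of_tower A hNR
  have : Module.Finite A R := inferInstance
  have hIntR : Algebra.IsIntegral A R := Algebra.IsIntegral.of_finite A R
  have hNormR : IsIntegrallyClosed R := fixed_normal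
  -- the prime of `R`
  let Q : Ideal R := P.comap R.subtype
  have hQ : Q.IsPrime := Ideal.comap_isPrime _ _
  have hQc : Q.comap (algebraMap A R) = Ideal.span {t} := by
    rw [← hC.lies]
    rfl
  set ϖ : R := algebraMap A R t with hϖ
  have hpQ : ϖ ∈ Q := by
    have : t ∈ Q.comap (algebraMap A R) := by
      rw [hQc]; exact Ideal.mem_span_singleton_self _
    exact this
  have hp0 : ϖ ≠ 0 := by
    intro h0
    apply htp.ne_zero
    apply hinjR
    rw [map_zero, ← h0]
  have hramR : Associated (p : R) (ϖ ^ e) := by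
    have := hram.map (algebraMap A R)
    rwa [map_natCast, map_pow] at this
  have hmin : ∀ Q' : Ideal R, Q'.IsPrime → Q' ≤ Q → Q' ≠ ⊥ → Q' = Q := by
    intro Q' hQ' hle hne
    by_contra hcon
    have hlt : ∃ x, x ∈ Q ∧ x ∉ Q' := by
      by_contra hh
      push Not at hh
      exact hcon (le_antisymm hle hh)
    obtain ⟨x, hxQ, hxQ'⟩ := hlt
    have h1 : Q'.comap (algebraMap A R) < Q.comap (algebraMap A R) :=
      Ideal.comap_lt_comap_of_integral_mem_sdiff hle ⟨hxQ, hxQ'⟩ (Algebra.IsIntegral.isIntegral x)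
    have h2 : Q'.comap (algebraMap A R) ≠ ⊥ := by
      obtain ⟨z, hz, hz0⟩ := Submodule.exists_mem_ne_zero_of_ne_bot hne
      exact Ideal.comap_ne_bot_of_integral_mem hz0 hz (Algebra.IsIntegral.isIntegral z)
    rw [hQc] at h1
    have : (Q'.comap (algebraMap A R)).IsPrime := Ideal.comap_isPrime _ _
    exact h1.ne (prime_le t htp _ h1.le h2)
  have hpts : ∀ g : R, g ∉ Q → ∃ (O : Type) (_ : CommRing O) (_ : IsDomain O) (y : R →+* O),
      Irreducible (y ϖ) ∧ IsUnit (y g) := by
    intro g hg
    have hlt : Q.comap (algebraMap A R) < (Q ⊔ Ideal.span {g}).comap (algebraMap A R) :=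
      Ideal.comap_lt_comap_of_integral_mem_sdiff le_sup_left
        ⟨(le_sup_right : Ideal.span {g} ≤ Q ⊔ Ideal.span {g}) (Ideal.mem_span_singleton_self g), hg⟩
        (Algebra.IsIntegral.isIntegral g)
    obtain ⟨s, hs1, hs2⟩ := Set.exists_of_ssubset hlt
    have hs3 : ¬ t ∣ s := by
      intro hd
      apply hs2
      have : s ∈ Q.comap (algebraMap A R) := by
        rw [hQc]; exact Ideal.mem_span_singleton.2 hd
      exact this
    obtain ⟨O, x, hxS, hxt, hxs⟩ := hd s hs3
    obtain ⟨O', O'', G, i, k, y, hu, hk, hGk, hyf, hyP, hGJ⟩ := h O x hxS hxt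
    -- the point of `R` with values in `O'`
    have hex : ∀ b : R, ∃ d, k d = y (b : B) := by
      intro b
      apply hGk
      intro g hg
      obtain ⟨j, hj, hgj⟩ := hGJ g hg
      rw [hgj]
      congr 1
      exact b.2 ⟨j, hj⟩
    choose z hz using hex
    let y' : R →+* O' :=
      { toFun := z
        map_one' := hk (by rw [hz, map_one]; simp)
        map_mul' := fun a b => hk (by rw [hz, map_mul, hz, hz]; simp)
        map_zero' := hk (by rw [hz, map_zero]; simp)
        map_add' := fun a b => hk (by rw [hz, map_add, hz, hz]; simp) }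
    have hy' : ∀ b : R, k (y' b) = y (b : B) := hz
    have hy'a : ∀ a : A, y' (algebraMap A R a) = i (x a) := by
      intro a
      apply hk
      rw [hy', hfR, hyf]
    have := hu.1
    refine ⟨O', inferInstance, inferInstance, y', ?_, ?_⟩
    · rw [hϖ, hy'a]
      exact hu.2.1
    have hs4 : algebraMap A R s ∈ Q ⊔ Ideal.span {g} := hs1
    obtain ⟨q, hq, r, hr, hqr⟩ := Submodule.mem_sup.1 hs4
    obtain ⟨c, hc⟩ := Ideal.mem_span_singleton.1 hr
    have hys : IsUnit (y' (algebraMap A R s)) := by
      rw [hy'a]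
      exact hxs.map i
    rw [← hqr, map_add] at hys
    have hyq : ¬ IsUnit (y' q) := by
      intro hun
      apply hyP (q : B) hq
      rw [← hy']
      exact hun.map k
    have hyt : IsUnit (y' r) := by
      by_contra hnt
      exact hu.add hyq hnt hys
    rw [hc, map_mul] at hyt
    exact isUnit_of_mul_isUnit_left hyt
  rw [eq_top_iff]
  intro σ _
  apply artin (B := B) J σ
  -- the endomorphism of `R`
  have hσR : ∀ b : R, σ • (b : B) ∈ R := by
    intro b j
    have hn : σ⁻¹ * (j : I) * σ ∈ J := by
      have := hJ.conj_mem j.1 j.2 σ⁻¹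
      simpa using this
    have h1 : (σ⁻¹ * (j : I) * σ) • (b : B) = (b : B) := b.2 ⟨_, hn⟩
    show (j : I) • σ • (b : B) = σ • (b : B)
    have h2 : (j : I) • σ • (b : B) = σ • (σ⁻¹ * (j : I) * σ) • (b : B) := by
      rw [smul_smul, smul_smul]
      congr 1
      group
    rw [h2, h1]
  let s : R →+* R := ((act σ).comp R.subtype).codRestrict R hσR
  have hsv : ∀ b : R, ((s b : R) : B) = σ • (b : B) := fun b => rfl
  have hsk : ∀ k : ℕ, ∀ b : R, (((s ^ k) b : R) : B) = (σ ^ k) • (b : B) := by
    intro k
    induction k with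
    | zero => intro b; simp
    | succ k ih =>
      intro b
      rw [pow_succ, pow_succ]
      show (((s ^ k) (s b) : R) : B) = _
      rw [ih, hsv, smul_smul]
  have hsm : s ^ (orderOf σ) = 1 := by
    ext b
    rw [hsk, pow_orderOf_eq_one, one_smul]
    rfl
  have hsQ : ∀ c : R, s c - c ∈ Q := by
    intro c
    show ((s c - c : R) : B) ∈ P
    exact hC.triv σ (c : B)
  have hsϖ : s ϖ = ϖ := by
    apply Subtype.ext
    rw [hsv]
    exact hC.fix σ t
  have hfix := trivial_of_points p e hp he1 he ϖ hramR Q hpQ hp0 hmin hpts s hsϖ (orderOf σ)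
    (orderOf_pos σ) hsm hsQ
  intro b hb
  have := congrArg (fun z : R => (z : B)) (hfix ⟨b, hb⟩)
  exact this

end Pool.Agent.H20.CMC
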